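import Mathlib

set_option autoImplicit false

/-!
# The core inequality

For an antipodal up-set `F` of subsets of `Fin n` and a down-set `D`, with `f = ±1` the sign function
of `F` and `f̂` its (integer, unnormalised) Walsh transform, we show
`2 * 4 ^ n * |F ∩ D| ≤ ∑_{T, T' ∈ D} f̂(T ∆ T')²`.
-/

namespace Pool.Agent.Helper6.Kleitman

open Finset

variable {n : ℕ}

/-- Character `χ_T(x) = (-1)^{|T ∩ x|}`. -/
def chi (T x : Finset (Fin n)) : ℤ := ∏ i ∈ T, (if i ∈ x then -1 else 1)

lemma chi_eq (T x : Finset (Fin n)) : chi T x = ∏ i, (if i ∈ T ∧ i ∈ x then (-1 : ℤ) else 1) := by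
  unfold chi
  rw [← Finset.prod_filter_mul_prod_filter_not Finset.univ (fun i => i ∈ T)]
  have h1 : (Finset.univ.filter (fun i => i ∈ T)) = T := by ext; simp
  have h2 : ∏ i ∈ Finset.univ.filter (fun i => i ∉ T), (if i ∈ T ∧ i ∈ x then (-1 : ℤ) else 1) = 1 := by
    apply Finset.prod_eq_one
    intro i hi
    have : i ∉ T := by simpa using hi
    simp [this]
  rw [h2, mul_one, h1]
  apply Finset.prod_congr rfl
  intro i hi
  simp [hi]

lemma chi_comm (T x : Finset (Fin n)) : chi T x = chi x T := by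
  rw [chi_eq, chi_eq]
  apply Finset.prod_congr rfl
  intro i _
  simp [and_comm]

lemma chi_mul (T R x : Finset (Fin n)) : chi T x * chi R x = chi (symmDiff T R) x := by
  rw [chi_eq, chi_eq, chi_eq, ← Finset.prod_mul_distrib]
  apply Finset.prod_congr rfl
  intro i _
  by_cases h1 : i ∈ T <;> by_cases h2 : i ∈ R <;> by_cases h3 : i ∈ x <;>
    simp [h1, h2, h3, Finset.mem_symmDiff]

lemma sum_chi (R : Finset (Fin n)) : ∑ x, chi R x = if R = ∅ then (2 : ℤ) ^ n else 0 := by
  have h : ∑ x, chi R x = ∏ i : Fin n, (1 + (if i ∈ R then (-1 : ℤ) else 1)) := by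
    rw [Finset.prod_one_add, Finset.powerset_univ]
    apply Finset.sum_congr rfl
    intro x _
    rw [chi_comm]
    rfl
  rw [h]
  split_ifs with hR
  · subst hR
    simp
  · obtain ⟨i, hi⟩ := Finset.nonempty_iff_ne_empty.mpr hR
    apply Finset.prod_eq_zero (Finset.mem_univ i)
    simp [hi]

/-- The sign function of a family. -/
def sgn (F : Finset (Finset (Fin n))) (x : Finset (Fin n)) : ℤ := if x ∈ F then 1 else -1

/-- Unnormalised Walsh transform. -/
def fz (F : Finset (Finset (Fin n))) (R : Finset (Fin n)) : ℤ := ∑ x, sgn F x * chi R x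

/-- The vectors `u_A^ε`. -/
def uvec (ε : ℤ) (A T : Finset (Fin n)) : ℤ := if T ⊆ A then ε ^ T.card else 0

/-- `∏_{i ∈ A} (1 + ε (-1)^{[i ∈ x]})`. -/
def pvec (ε : ℤ) (A x : Finset (Fin n)) : ℤ := ∏ i ∈ A, (1 + ε * (if i ∈ x then -1 else 1))

lemma pvec_eq (ε : ℤ) (A x : Finset (Fin n)) :
    pvec ε A x = ∑ T, uvec ε A T * chi T x := by
  unfold pvec
  rw [Finset.prod_one_add]
  have h : ∑ T, uvec ε A T * chi T x = ∑ T ∈ A.powerset, ε ^ T.card * chi T x := by
    unfold uvec
    rw [← Finset.sum_filter_add_sum_filter_not Finset.univ (fun T => T ⊆ A)]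
    have h2 : ∑ T ∈ Finset.univ.filter (fun T => ¬ T ⊆ A), (if T ⊆ A then ε ^ T.card else 0) * chi T x = 0 := by
      apply Finset.sum_eq_zero
      intro T hT
      have : ¬ T ⊆ A := by simpa using hT
      simp [this]
    rw [h2, add_zero]
    have h3 : (Finset.univ.filter (fun T => T ⊆ A)) = A.powerset := by ext; simp
    rw [h3]
    apply Finset.sum_congr rfl
    intro T hT
    have : T ⊆ A := by simpa using hT
    simp [this]
  rw [h]
  apply Finset.sum_congr rfl
  intro T _
  rw [Finset.prod_mul_distrib, Finset.prod_const]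
  rfl

lemma sum_chi_pvec (ε : ℤ) (A T : Finset (Fin n)) :
    ∑ x, chi T x * pvec ε A x = 2 ^ n * uvec ε A T := by
  have h : ∀ x, chi T x * pvec ε A x = ∑ R, uvec ε A R * chi (symmDiff T R) x := by
    intro x
    rw [pvec_eq, Finset.mul_sum]
    apply Finset.sum_congr rfl
    intro R _
    rw [← chi_mul]
    ring
  simp_rw [h]
  rw [Finset.sum_comm]
  simp_rw [← Finset.mul_sum, sum_chi]
  rw [Finset.sum_eq_single T]
  · simp [mul_comm]
  · intro R _ hR
    have : symmDiff T R ≠ ∅ := by
      intro h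
      apply hR
      have := symmDiff_eq_bot.mp (by simpa using h : symmDiff T R = ⊥)
      exact this.symm
    simp [this]
  · simp

/-- The hypothesis on `F`: antipodal up-set. -/
structure AU (F : Finset (Finset (Fin n))) : Prop where
  up : ∀ A B : Finset (Fin n), A ∈ F → A ⊆ B → B ∈ F
  anti : ∀ A : Finset (Fin n), A ∈ F ↔ Aᶜ ∉ F

lemma sgn_pvec {F : Finset (Finset (Fin n))} (hF : AU F) {ε : ℤ} (hε : ε = 1 ∨ ε = -1)
    {A : Finset (Fin n)} (hA : A ∈ F) (x : Finset (Fin n)) :
    sgn F x * pvec ε A x = -ε * pvec ε A x := by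
  by_cases h0 : pvec ε A x = 0
  · simp [h0]
  · have hne : ∀ i ∈ A, (1 + ε * (if i ∈ x then -1 else 1) : ℤ) ≠ 0 := by
      intro i hi h
      exact h0 (Finset.prod_eq_zero hi h)
    congr 1
    rcases hε with rfl | rfl
    · -- ε = 1: x disjoint from A
      have hx : x ⊆ Aᶜ := by
        intro i hi
        rw [Finset.mem_compl]
        intro hiA
        have := hne i hiA
        simp [hi] at this
      have : x ∉ F := by
        intro hxF
        have := hF.up x Aᶜ hxF hx
        exact (hF.anti A).mp hA this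
      simp [sgn, this]
    · have hx : A ⊆ x := by
        intro i hi
        by_contra hix
        have := hne i hi
        simp [hix] at this
      have : x ∈ F := hF.up A x hA hx
      simp [sgn, this]

lemma fz_conv {F : Finset (Finset (Fin n))} (hF : AU F) {ε : ℤ} (hε : ε = 1 ∨ ε = -1)
    {A : Finset (Fin n)} (hA : A ∈ F) (T : Finset (Fin n)) :
    ∑ R, fz F (symmDiff T R) * uvec ε A R = 2 ^ n * (-ε * uvec ε A T) := by
  have h : ∀ R, fz F (symmDiff T R) * uvec ε A R
      = ∑ x, sgn F x * chi T x * (uvec ε A R * chi R x) := by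
    intro R
    unfold fz
    rw [Finset.sum_mul]
    apply Finset.sum_congr rfl
    intro x _
    rw [← chi_mul]
    ring
  simp_rw [h]
  rw [Finset.sum_comm]
  simp_rw [← Finset.mul_sum, ← pvec_eq]
  have h2 : ∀ x, sgn F x * chi T x * pvec ε A x = -ε * (chi T x * pvec ε A x) := by
    intro x
    have := sgn_pvec hF hε hA x
    calc sgn F x * chi T x * pvec ε A x = chi T x * (sgn F x * pvec ε A x) := by ring
      _ = _ := by rw [this]; ring
  simp_rw [h2]
  rw [← Finset.mul_sum, sum_chi_pvec]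
  ring

end Pool.Agent.Helper6.Kleitman
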