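import Mathlib

set_option autoImplicit false

/-!
# A Hilbert-Schmidt bound

If a real symmetric matrix `S` satisfies `S (S w) = w` for all `w` in a subspace `W`, then
`dim W ≤ ∑ i j, S i j ^ 2`.
-/

namespace Pool.Agent.Helper6.Kleitman

open Finset

variable {ι : Type*} [Fintype ι]

lemma hs_bound (S : ι → ι → ℝ) (hS : ∀ i j, S i j = S j i)
    (W : Submodule ℝ (EuclideanSpace ℝ ι))
    (hW : ∀ w ∈ W, ∀ i, ∑ j, S i j * (∑ k, S j k * w k) = w i) :
    (Module.finrank ℝ W : ℝ) ≤ ∑ i, ∑ j, S i j ^ 2 := by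
  classical
  let b := stdOrthonormalBasis ℝ W
  let v : Fin (Module.finrank ℝ W) → EuclideanSpace ℝ ι := fun j => (b j : EuclideanSpace ℝ ι)
  have hv : Orthonormal ℝ v := by
    have := b.orthonormal
    exact this.comp_linearIsometry W.subtypeₗᵢ
  let row : ι → EuclideanSpace ℝ ι := fun i => WithLp.toLp 2 (fun j => S i j)
  have hinner : ∀ x y : EuclideanSpace ℝ ι, inner ℝ x y = ∑ i, x i * y i := by
    intro x y
    rw [PiLp.inner_apply]
    apply Finset.sum_congr rfl
    intro i _
    simp [mul_comm]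
  have hrow : ∀ i (x : EuclideanSpace ℝ ι), inner ℝ x (row i) = ∑ j, S i j * x j := by
    intro i x
    rw [hinner]
    apply Finset.sum_congr rfl
    intro j _
    simp [row, mul_comm]
  have hone : ∀ j, (1 : ℝ) = ∑ i, (inner ℝ (v j) (row i)) ^ 2 := by
    intro j
    have h1 : inner ℝ (v j) (v j) = (1 : ℝ) := by
      rw [real_inner_self_eq_norm_sq, hv.1 j]; norm_num
    have h2 : ∀ i, (v j) i = ∑ k, S i k * (∑ l, S k l * (v j) l) := by
      intro i
      exact (hW (v j) (b j).2 i).symm
    rw [hinner] at h1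
    rw [← h1]
    calc ∑ i, (v j) i * (v j) i = ∑ i, (v j) i * ∑ k, S i k * (∑ l, S k l * (v j) l) := by
          apply Finset.sum_congr rfl
          intro i _
          rw [← h2 i]
      _ = ∑ i, ∑ k, (v j) i * (S i k * (∑ l, S k l * (v j) l)) := by
          apply Finset.sum_congr rfl
          intro i _
          rw [Finset.mul_sum]
      _ = ∑ k, ∑ i, (v j) i * (S i k * (∑ l, S k l * (v j) l)) := Finset.sum_comm
      _ = ∑ k, (inner ℝ (v j) (row k)) ^ 2 := by
          apply Finset.sum_congr rfl
          intro k _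
          rw [hrow, sq, Finset.sum_mul]
          apply Finset.sum_congr rfl
          intro i _
          rw [hS i k]
          ring
  have hcard : (Module.finrank ℝ W : ℝ) = ∑ j, ∑ i, (inner ℝ (v j) (row i)) ^ 2 := by
    simp_rw [← hone]
    simp
  rw [hcard, Finset.sum_comm]
  apply Finset.sum_le_sum
  intro i _
  have hb := hv.sum_inner_products_le (x := row i) (s := Finset.univ)
  have hnorm : ‖row i‖ ^ 2 = ∑ j, S i j ^ 2 := by
    rw [← real_inner_self_eq_norm_sq, hrow]
    apply Finset.sum_congr rfl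
    intro j _
    simp [row, sq]
  rw [← hnorm]
  refine le_trans (le_of_eq ?_) hb
  apply Finset.sum_congr rfl
  intro j _
  simp

end Pool.Agent.Helper6.Kleitman
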