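import Mathlib
import Pool.Agent.Helper6.Kleitman.HS
import Pool.Agent.Helper6.Kleitman.Core

set_option autoImplicit false

namespace Pool.Agent.Helper6.Kleitman

open Finset

section general

variable {ι : Type*} [Fintype ι]

/-- Eigenspace of the matrix `S` for the eigenvalue `c`. -/
def Wsub (S : ι → ι → ℝ) (c : ℝ) : Submodule ℝ (EuclideanSpace ℝ ι) where
  carrier := {w | ∀ i, ∑ j, S i j * w j = c * w i}
  add_mem' := by
    intro a b ha hb i
    simp only [Set.mem_setOf_eq] at ha hb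
    simp only [PiLp.add_apply, mul_add, Finset.sum_add_distrib, ha i, hb i]
  zero_mem' := by
    intro i
    simp
  smul_mem' := by
    intro r a ha i
    simp only [Set.mem_setOf_eq] at ha
    simp only [PiLp.smul_apply, smul_eq_mul]
    have h : ∀ j, S i j * (r * a j) = r * (S i j * a j) := by intro j; ring
    simp_rw [h]
    rw [← Finset.mul_sum, ha i]
    ring

lemma mem_Wsub {S : ι → ι → ℝ} {c : ℝ} {w : EuclideanSpace ℝ ι} :
    w ∈ Wsub S c ↔ ∀ i, ∑ j, S i j * w j = c * w i := Iff.rfl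

lemma two_eig (S : ι → ι → ℝ) (hS : ∀ i j, S i j = S j i) (k : ℕ)
    (h1 : k ≤ Module.finrank ℝ (Wsub S 1)) (h2 : k ≤ Module.finrank ℝ (Wsub S (-1))) :
    2 * (k : ℝ) ≤ ∑ i, ∑ j, S i j ^ 2 := by
  have hdisj : Wsub S 1 ⊓ Wsub S (-1) = ⊥ := by
    rw [eq_bot_iff]
    intro w hw
    rw [Submodule.mem_inf] at hw
    obtain ⟨ha, hb⟩ := hw
    rw [mem_Wsub] at ha hb
    rw [Submodule.mem_bot]
    ext i
    have := ha i
    have h' := hb i
    simp only [PiLp.zero_apply]
    linarith
  have hle : ∀ w ∈ Wsub S 1 ⊔ Wsub S (-1), ∀ i, ∑ j, S i j * (∑ k, S j k * w k) = w i := by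
    intro w hw i
    obtain ⟨a, ha, b, hb, rfl⟩ := Submodule.mem_sup.mp hw
    rw [mem_Wsub] at ha hb
    simp only [PiLp.add_apply, mul_add, Finset.sum_add_distrib]
    have e1 : ∀ j, ∑ k, S j k * a k = a j := by intro j; rw [ha j]; ring
    have e2 : ∀ j, ∑ k, S j k * b k = - b j := by intro j; rw [hb j]; ring
    simp_rw [e1, e2]
    have e3 : ∑ j, S i j * (- b j) = b i := by
      have := e2 i
      simp only [mul_neg, Finset.sum_neg_distrib]
      linarith
    rw [e3]
  classical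
  have hb := hs_bound S hS (Wsub S 1 ⊔ Wsub S (-1)) hle
  have hfr := Submodule.finrank_sup_add_finrank_inf_eq (Wsub S 1) (Wsub S (-1))
  rw [hdisj, finrank_bot, add_zero] at hfr
  have : (2 * k : ℕ) ≤ Module.finrank ℝ ↥(Wsub S 1 ⊔ Wsub S (-1)) := by omega
  have h3 : (2 * (k : ℝ)) ≤ (Module.finrank ℝ ↥(Wsub S 1 ⊔ Wsub S (-1)) : ℝ) := by
    exact_mod_cast this
  linarith

end general

variable {n : ℕ}

/-- real version of `uvec` as a vector of Euclidean space -/
noncomputable def uE (ε : ℤ) (A : Finset (Fin n)) : EuclideanSpace ℝ (Finset (Fin n)) :=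
  WithLp.toLp 2 (fun T => (uvec ε A T : ℝ))

lemma linInd (ε : ℤ) (hε : ε ≠ 0) (X : Finset (Finset (Fin n))) :
    LinearIndependent ℝ (fun A : {A // A ∈ X} => uE ε A.1) := by
  classical
  rw [Fintype.linearIndependent_iff]
  intro g hg
  by_contra hne
  push Not at hne
  obtain ⟨i0, hi0⟩ := hne
  obtain ⟨A, hA, hmax⟩ := Finset.exists_max_image
    (Finset.univ.filter (fun i : {A // A ∈ X} => g i ≠ 0)) (fun i => i.1.card)
    ⟨i0, by simp [hi0]⟩
  have hgA : g A ≠ 0 := by simpa using hA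
  have hev := congrArg (fun w : EuclideanSpace ℝ (Finset (Fin n)) => w A.1) hg
  simp only [PiLp.zero_apply] at hev
  rw [WithLp.ofLp_sum, Finset.sum_apply] at hev
  rw [Finset.sum_eq_single A] at hev
  · simp only [PiLp.smul_apply, smul_eq_mul, uE, uvec] at hev
    rw [if_pos (Finset.Subset.refl _)] at hev
    rcases mul_eq_zero.mp hev with h | h
    · exact hgA h
    · push_cast at h
      have : (ε : ℝ) ≠ 0 := by exact_mod_cast hε
      exact (pow_ne_zero _ this) h
  · intro B _ hBA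
    simp only [PiLp.smul_apply, smul_eq_mul, uE, uvec]
    by_cases hsub : A.1 ⊆ B.1
    · have : g B = 0 := by
        by_contra hgB
        have h1 := hmax B (by simp [hgB])
        have h2 : A.1 = B.1 := Finset.eq_of_subset_of_card_le hsub h1
        exact hBA (Subtype.ext h2.symm)
      simp [this]
    · simp [hsub]
  · simp

/-- The matrix `S`. -/
noncomputable def Smat (F D : Finset (Finset (Fin n))) (T R : Finset (Fin n)) : ℝ :=
  if T ∈ D ∧ R ∈ D then (fz F (symmDiff T R) : ℝ) / 2 ^ n else 0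

lemma uE_mem {F D : Finset (Finset (Fin n))} (hF : AU F)
    (hD : ∀ A B : Finset (Fin n), A ∈ D → B ⊆ A → B ∈ D) {ε : ℤ} (hε : ε = 1 ∨ ε = -1)
    {A : Finset (Fin n)} (hA : A ∈ F) (hAD : A ∈ D) :
    uE ε A ∈ Wsub (Smat F D) (-ε : ℤ) := by
  rw [mem_Wsub]
  intro T
  have hz : ∀ R, R ∉ D → uvec ε A R = 0 := by
    intro R hR
    unfold uvec
    rw [if_neg]
    intro h
    exact hR (hD A R hAD h)
  by_cases hT : T ∈ D
  · have h1 : ∀ R, Smat F D T R * (uE ε A) R = (fz F (symmDiff T R) * uvec ε A R : ℤ) / 2 ^ n := by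
      intro R
      by_cases hR : R ∈ D
      · simp only [Smat, hT, hR, and_self, if_true, uE]
        push_cast
        ring
      · simp [Smat, hR, uE, hz R hR]
    simp_rw [h1]
    rw [← Finset.sum_div]
    have h2 : (∑ R, ((fz F (symmDiff T R) * uvec ε A R : ℤ) : ℝ)) = (2 ^ n * (-ε * uvec ε A T) : ℤ) := by
      rw [← fz_conv hF hε hA T]
      push_cast
      rfl
    rw [h2]
    have h3 : (uE ε A) T = (uvec ε A T : ℝ) := rfl
    rw [h3]
    push_cast
    field_simp
  · have h3 : (uE ε A) T = (uvec ε A T : ℝ) := rfl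
    rw [h3, hz T hT]
    simp [Smat, hT]

theorem core_real {F D : Finset (Finset (Fin n))} (hF : AU F)
    (hD : ∀ A B : Finset (Fin n), A ∈ D → B ⊆ A → B ∈ D) :
    2 * ((F ∩ D).card : ℝ) ≤ ∑ T, ∑ R, Smat F D T R ^ 2 := by
  classical
  have hsym : ∀ T R, Smat F D T R = Smat F D R T := by
    intro T R
    unfold Smat
    rw [symmDiff_comm T R]
    simp only [and_comm]
  have key : ∀ ε : ℤ, (ε = 1 ∨ ε = -1) →
      (F ∩ D).card ≤ Module.finrank ℝ (Wsub (Smat F D) ((-ε : ℤ) : ℝ)) := by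
    intro ε hε
    have hε0 : ε ≠ 0 := by rcases hε with rfl | rfl <;> norm_num
    have hli := linInd (n := n) ε hε0 (F ∩ D)
    have hcard := finrank_span_eq_card hli
    have hsub : Submodule.span ℝ (Set.range (fun A : {A // A ∈ F ∩ D} => uE ε A.1))
        ≤ Wsub (Smat F D) ((-ε : ℤ) : ℝ) := by
      rw [Submodule.span_le]
      rintro _ ⟨A, rfl⟩
      have hA := A.2
      rw [Finset.mem_inter] at hA
      exact uE_mem hF hD hε hA.1 hA.2
    have h4 := Submodule.finrank_mono hsub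
    rw [hcard, Fintype.card_coe] at h4
    exact h4
  apply two_eig _ hsym
  · have h5 := key (-1) (Or.inr rfl)
    have e : ((-(-1) : ℤ) : ℝ) = 1 := by norm_num
    rwa [e] at h5
  · have h5 := key 1 (Or.inl rfl)
    have e : ((-1 : ℤ) : ℝ) = -1 := by norm_num
    rwa [e] at h5

/-- The core inequality, integer form. -/
theorem core {F D : Finset (Finset (Fin n))} (hF : AU F)
    (hD : ∀ A B : Finset (Fin n), A ∈ D → B ⊆ A → B ∈ D) :
    2 * 4 ^ n * ((F ∩ D).card : ℤ) ≤ ∑ T ∈ D, ∑ R ∈ D, (fz F (symmDiff T R)) ^ 2 := by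
  classical
  have h := core_real hF hD
  have h2 : ∑ T, ∑ R, Smat F D T R ^ 2
      = (∑ T ∈ D, ∑ R ∈ D, ((fz F (symmDiff T R) : ℝ)) ^ 2) / 4 ^ n := by
    rw [Finset.sum_div]
    rw [← Finset.sum_subset (Finset.subset_univ D)]
    · apply Finset.sum_congr rfl
      intro T hT
      rw [Finset.sum_div]
      rw [← Finset.sum_subset (Finset.subset_univ D)]
      · apply Finset.sum_congr rfl
        intro R hR
        simp only [Smat, hT, hR, and_self, if_true]
        rw [div_pow]
        congr 1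
        rw [← pow_mul, mul_comm n 2, pow_mul]
        norm_num
      · intro R _ hR
        simp [Smat, hR]
    · intro T _ hT
      apply Finset.sum_eq_zero
      intro R _
      simp [Smat, hT]
  rw [h2, le_div_iff₀ (by positivity)] at h
  have h3 : ((2 * 4 ^ n * ((F ∩ D).card : ℤ) : ℤ) : ℝ)
      ≤ ((∑ T ∈ D, ∑ R ∈ D, (fz F (symmDiff T R)) ^ 2 : ℤ) : ℝ) := by
    push_cast
    linarith
  exact_mod_cast h3

end Pool.Agent.Helper6.Kleitman
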