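import Mathlib
import Pool.Agent.Helper6.Kleitman.Eig

set_option autoImplicit false

namespace Pool.Agent.Helper6.Kleitman

open Finset

variable {n : ℕ}

/-- `D` is a down-set. -/
def Down (D : Finset (Finset (Fin n))) : Prop := ∀ A B : Finset (Fin n), A ∈ D → B ⊆ A → B ∈ D

lemma card_anti (X : Finset (Finset (Fin n))) (h : ∀ A : Finset (Fin n), A ∈ X ↔ Aᶜ ∉ X) :
    2 * X.card = 2 ^ n := by
  classical
  have h1 : X.image compl = Xᶜ := by
    ext A
    rw [Finset.mem_image, Finset.mem_compl]
    constructor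
    · rintro ⟨B, hB, rfl⟩
      exact (h B).mp hB
    · intro hA
      refine ⟨Aᶜ, ?_, compl_compl A⟩
      rw [h Aᶜ, compl_compl]
      exact hA
  have h2 : (X.image compl).card = X.card := Finset.card_image_of_injective X compl_injective
  have h3 : X.card + Xᶜ.card = Fintype.card (Finset (Fin n)) := by
    rw [Finset.card_compl]
    have := Finset.card_le_univ X
    omega
  rw [← h1, h2] at h3
  rw [Fintype.card_finset, Fintype.card_fin] at h3
  omega

lemma fz_empty {F : Finset (Finset (Fin n))} (hF : AU F) : fz F ∅ = 0 := by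
  classical
  have h1 : fz F ∅ = ∑ x, sgn F x := by
    unfold fz
    apply Finset.sum_congr rfl
    intro x _
    simp [chi]
  have h2 : ∑ x, sgn F x = ∑ x, sgn F xᶜ := by
    apply Finset.sum_bij (fun x _ => xᶜ)
    · intro x _; exact Finset.mem_univ _
    · intro x _ y _ h; exact compl_injective h
    · intro y _; exact ⟨yᶜ, Finset.mem_univ _, compl_compl y⟩
    · intro x _; rw [compl_compl]
  have h3 : ∀ x, sgn F xᶜ = - sgn F x := by
    intro x
    unfold sgn
    by_cases hx : x ∈ F
    · have := (hF.anti x).mp hx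
      simp [hx, this]
    · have : xᶜ ∈ F := by
        by_contra hc
        exact hx ((hF.anti x).mpr hc)
      simp [hx, this]
  simp_rw [h3] at h2
  rw [Finset.sum_neg_distrib] at h2
  rw [h1]
  linarith

lemma parseval (F : Finset (Finset (Fin n))) : ∑ R, (fz F R) ^ 2 = 4 ^ n := by
  classical
  have h1 : ∀ R, (fz F R) ^ 2 = ∑ x, ∑ y, sgn F x * sgn F y * chi (symmDiff x y) R := by
    intro R
    unfold fz
    rw [sq, Finset.sum_mul_sum]
    apply Finset.sum_congr rfl
    intro x _
    apply Finset.sum_congr rfl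
    intro y _
    rw [← chi_mul, chi_comm R x, chi_comm R y]
    ring
  simp_rw [h1]
  rw [Finset.sum_comm]
  have h2 : ∀ x, ∑ R, ∑ y, sgn F x * sgn F y * chi (symmDiff x y) R = 2 ^ n := by
    intro x
    rw [Finset.sum_comm]
    simp_rw [← Finset.mul_sum, sum_chi]
    rw [Finset.sum_eq_single x]
    · have : sgn F x * sgn F x = 1 := by
        unfold sgn; split_ifs <;> norm_num
      simp [this]
    · intro y _ hy
      have : symmDiff x y ≠ ∅ := by
        intro h
        apply hy
        have := symmDiff_eq_bot.mp (by simpa using h : symmDiff x y = ⊥)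
        exact this.symm
      simp [this]
    · simp
  simp_rw [h2]
  simp only [Finset.sum_const, Finset.card_univ, Fintype.card_finset, Fintype.card_fin]
  rw [nsmul_eq_mul]
  push_cast
  rw [← mul_pow]
  norm_num

lemma regroup (D : Finset (Finset (Fin n))) (c : Finset (Fin n) → ℤ) :
    ∑ T ∈ D, ∑ R ∈ D, c (symmDiff T R)
      = ∑ Q, c Q * ((D.filter (fun T => symmDiff T Q ∈ D)).card : ℤ) := by
  classical
  have h1 : ∀ T ∈ D, ∑ R ∈ D, c (symmDiff T R) = ∑ Q, (if symmDiff T Q ∈ D then c Q else 0) := by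
    intro T _
    have e : ∑ R ∈ D, c (symmDiff T R) = ∑ R, (if R ∈ D then c (symmDiff T R) else 0) := by
      rw [Finset.sum_ite_mem, Finset.univ_inter]
    rw [e]
    have inv : ∀ Q : Finset (Fin n), symmDiff T (symmDiff T Q) = Q := fun Q =>
      symmDiff_symmDiff_cancel_left T Q
    apply Finset.sum_bij (fun R _ => symmDiff T R)
    · intro R _; exact Finset.mem_univ _
    · intro R _ R' _ h
      have := congrArg (symmDiff T) h
      rwa [inv, inv] at this
    · intro Q _
      exact ⟨symmDiff T Q, Finset.mem_univ _, inv Q⟩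
    · intro R _
      rw [inv]
  rw [Finset.sum_congr rfl h1, Finset.sum_comm]
  apply Finset.sum_congr rfl
  intro Q _
  rw [Finset.sum_ite, Finset.sum_const_zero, add_zero, Finset.sum_const, nsmul_eq_mul]
  ring

lemma pair_count (D : Finset (Finset (Fin n))) (Q : Finset (Fin n)) (i : Fin n) (hi : i ∈ Q) :
    (D.filter (fun T => symmDiff T Q ∈ D)).card ≤ 2 * (D.filter (fun T => i ∈ T)).card := by
  classical
  set X := D.filter (fun T => symmDiff T Q ∈ D) with hX
  have h0 : (X.filter (fun T => i ∈ T)).card + (X.filter (fun T => ¬ i ∈ T)).card = X.card :=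
    Finset.card_filter_add_card_filter_not (fun T => i ∈ T)
  have h1 : (X.filter (fun T => i ∈ T)).card ≤ (D.filter (fun T => i ∈ T)).card := by
    apply Finset.card_le_card
    intro T hT
    rw [Finset.mem_filter] at hT ⊢
    exact ⟨(Finset.mem_filter.mp hT.1).1, hT.2⟩
  have h2 : (X.filter (fun T => ¬ i ∈ T)).card ≤ (D.filter (fun T => i ∈ T)).card := by
    apply Finset.card_le_card_of_injOn (fun T => symmDiff T Q)
    · intro T hT
      have hT' := Finset.mem_filter.mp (Finset.mem_coe.mp hT)
      have hTX := Finset.mem_filter.mp hT'.1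
      apply Finset.mem_coe.mpr
      rw [Finset.mem_filter]
      refine ⟨hTX.2, ?_⟩
      rw [Finset.mem_symmDiff]
      exact Or.inr ⟨hi, hT'.2⟩
    · intro T _ T' _ h
      have := congrArg (fun Y => symmDiff Y Q) h
      simpa using this
  omega

theorem weighted {F D : Finset (Finset (Fin n))} (hF : AU F) (hD : Down D)
    (pick : Finset (Fin n) → Fin n) (hpick : ∀ R : Finset (Fin n), R.Nonempty → pick R ∈ R) :
    4 ^ n * ((F ∩ D).card : ℤ)
      ≤ ∑ R, (fz F R) ^ 2 * ((D.filter (fun T => pick R ∈ T)).card : ℤ) := by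
  classical
  have h1 := core hF hD
  rw [regroup D (fun Q => (fz F Q) ^ 2)] at h1
  have h2 : ∑ Q, (fz F Q) ^ 2 * ((D.filter (fun T => symmDiff T Q ∈ D)).card : ℤ)
      ≤ ∑ Q, (fz F Q) ^ 2 * (2 * ((D.filter (fun T => pick Q ∈ T)).card : ℤ)) := by
    apply Finset.sum_le_sum
    intro Q _
    rcases Finset.eq_empty_or_nonempty Q with rfl | hQ
    · simp [fz_empty hF]
    · apply mul_le_mul_of_nonneg_left _ (sq_nonneg _)
      exact_mod_cast pair_count D Q (pick Q) (hpick Q hQ)
  have h3 : ∑ Q, (fz F Q) ^ 2 * (2 * ((D.filter (fun T => pick Q ∈ T)).card : ℤ))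
      = 2 * ∑ Q, (fz F Q) ^ 2 * ((D.filter (fun T => pick Q ∈ T)).card : ℤ) := by
    rw [Finset.mul_sum]
    apply Finset.sum_congr rfl
    intro Q _
    ring
  rw [h3] at h2
  linarith

/-- integer weight numerators -/
def Lam (F : Finset (Finset (Fin n))) (pick : Finset (Fin n) → Fin n) (i : Fin n) : ℕ :=
  ∑ R ∈ Finset.univ.filter (fun R => pick R = i), (fz F R).natAbs ^ 2

lemma Lam_sum (F : Finset (Finset (Fin n))) (pick : Finset (Fin n) → Fin n) :
    ∑ i, Lam F pick i = 4 ^ n := by
  classical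
  unfold Lam
  rw [Finset.sum_fiberwise]
  have h := parseval F
  have h2 : ((∑ R, (fz F R).natAbs ^ 2 : ℕ) : ℤ) = 4 ^ n := by
    rw [← h]
    push_cast
    apply Finset.sum_congr rfl
    intro R _
    rw [sq_abs]
  exact_mod_cast h2

lemma sum_over_D (F D : Finset (Finset (Fin n))) (pick : Finset (Fin n) → Fin n) :
    ∑ B ∈ D, ∑ i ∈ B, Lam F pick i
      = ∑ R, (fz F R).natAbs ^ 2 * (D.filter (fun T => pick R ∈ T)).card := by
  classical
  have h1 : ∀ B ∈ D, ∑ i ∈ B, Lam F pick i
      = ∑ R, (if pick R ∈ B then (fz F R).natAbs ^ 2 else 0) := by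
    intro B _
    unfold Lam
    rw [← Finset.sum_filter]
    rw [← Finset.sum_fiberwise_of_maps_to (s := Finset.univ.filter (fun R => pick R ∈ B)) (t := B)
      (g := pick) (by intro R hR; simpa using hR)]
    apply Finset.sum_congr rfl
    intro i hi
    apply Finset.sum_congr _ (fun _ _ => rfl)
    ext R
    simp only [Finset.mem_filter, Finset.mem_univ, true_and]
    constructor
    · intro h
      exact ⟨h ▸ hi, h⟩
    · intro h
      exact h.2
  rw [Finset.sum_congr rfl h1, Finset.sum_comm]
  apply Finset.sum_congr rfl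
  intro R _
  rw [Finset.sum_ite, Finset.sum_const_zero, add_zero, Finset.sum_const, smul_eq_mul]
  ring

theorem flow_ineq {F D : Finset (Finset (Fin n))} (hF : AU F) (hD : Down D)
    (pick : Finset (Fin n) → Fin n) (hpick : ∀ R : Finset (Fin n), R.Nonempty → pick R ∈ R) :
    4 ^ n * (F ∩ D).card ≤ ∑ B ∈ D, ∑ i ∈ B, Lam F pick i := by
  rw [sum_over_D]
  have h := weighted hF hD pick hpick
  have h2 : ((4 ^ n * (F ∩ D).card : ℕ) : ℤ)
      ≤ ((∑ R, (fz F R).natAbs ^ 2 * (D.filter (fun T => pick R ∈ T)).card : ℕ) : ℤ) := by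
    push_cast
    simp_rw [sq_abs]
    exact h
  exact_mod_cast h2

theorem flow_total {F : Finset (Finset (Fin n))} (hF : AU F)
    (pick : Finset (Fin n) → Fin n) :
    4 ^ n * F.card = ∑ B, ∑ i ∈ B, Lam F pick i := by
  classical
  have h1 := sum_over_D F Finset.univ pick
  rw [h1]
  have hF2 := card_anti F hF.anti
  have h2 : ∀ i : Fin n, 2 * (Finset.univ.filter (fun T : Finset (Fin n) => i ∈ T)).card = 2 ^ n := by
    intro i
    apply card_anti
    intro A
    simp
  have h3 : ∀ i : Fin n, (Finset.univ.filter (fun T : Finset (Fin n) => i ∈ T)).card = F.card := by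
    intro i
    have := h2 i
    omega
  simp_rw [h3]
  rw [← Finset.sum_mul]
  have h4 : ∑ R, (fz F R).natAbs ^ 2 = 4 ^ n := by
    have := Lam_sum F pick
    unfold Lam at this
    rwa [Finset.sum_fiberwise] at this
  rw [h4]

end Pool.Agent.Helper6.Kleitman
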