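import Mathlib
import Pool.Agent.Helper6.Kleitman.Count

set_option autoImplicit false

namespace Pool.Agent.Helper6.Kleitman

open Finset

variable {n : ℕ}

/-- Integral max-flow min-cut for this situation, from Hall's theorem. -/
theorem transport (F : Finset (Finset (Fin n))) (M : ℕ) (hM : 0 < M) (g : Finset (Fin n) → ℕ)
    (hineq : ∀ D : Finset (Finset (Fin n)), Down D → M * (F ∩ D).card ≤ ∑ B ∈ D, g B)
    (htot : M * F.card = ∑ B, g B) :
    ∃ v : Finset (Fin n) → Finset (Fin n) → ℝ,
      (∀ A B, 0 ≤ v A B) ∧
      (∀ A, (∑ B, v A B) = if A ∈ F then (1 : ℝ) else 0) ∧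
      (∀ B, (∑ A, v A B) = (g B : ℝ) / M) ∧
      (∀ A B, ¬ B ⊆ A → v A B = 0) := by
  classical
  let L := {A // A ∈ F} × Fin M
  let Rt := Σ B : Finset (Fin n), Fin (g B)
  let t : L → Finset Rt := fun p => Finset.univ.filter (fun r => r.1 ⊆ p.1.1)
  have hall : ∀ s : Finset L, s.card ≤ (s.biUnion t).card := by
    intro s
    let D : Finset (Finset (Fin n)) := Finset.univ.filter (fun B => ∃ p ∈ s, B ⊆ p.1.1)
    have hD : Down D := by
      intro A B hA hBA
      rw [Finset.mem_filter] at hA ⊢
      obtain ⟨-, p, hp, hAp⟩ := hA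
      exact ⟨Finset.mem_univ _, p, hp, hBA.trans hAp⟩
    have h1 : s.biUnion t = D.sigma (fun _ => Finset.univ) := by
      ext r
      rw [Finset.mem_biUnion]
      refine Iff.trans ?_ (Finset.mem_sigma (s := D) (t := fun _ => Finset.univ) (a := r)).symm
      simp only [Finset.mem_univ, and_true, t, D, Finset.mem_filter, true_and]
    have h2 : (s.biUnion t).card = ∑ B ∈ D, g B := by
      rw [h1, Finset.card_sigma]
      apply Finset.sum_congr rfl
      intro B _
      simp
    have h3 : s.card ≤ M * (F ∩ D).card := by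
      have hsub : s ⊆ (Finset.univ.filter (fun A : {A // A ∈ F} => A.1 ∈ D)) ×ˢ Finset.univ := by
        intro p hp
        rw [Finset.mem_product]
        refine ⟨?_, Finset.mem_univ _⟩
        rw [Finset.mem_filter]
        refine ⟨Finset.mem_univ _, ?_⟩
        rw [Finset.mem_filter]
        exact ⟨Finset.mem_univ _, p, hp, Finset.Subset.refl _⟩
      have h4 := Finset.card_le_card hsub
      rw [Finset.card_product, Finset.card_univ, Fintype.card_fin] at h4
      have h5 : (Finset.univ.filter (fun A : {A // A ∈ F} => A.1 ∈ D)).card ≤ (F ∩ D).card := by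
        apply Finset.card_le_card_of_injOn (fun A => A.1)
        · intro A hA
          have hA' := (Finset.mem_filter.mp (Finset.mem_coe.mp hA)).2
          exact Finset.mem_coe.mpr (Finset.mem_inter.mpr ⟨A.2, hA'⟩)
        · intro A _ B _ h
          exact Subtype.ext h
      calc s.card ≤ _ := h4
        _ ≤ (F ∩ D).card * M := Nat.mul_le_mul_right _ h5
        _ = _ := Nat.mul_comm _ _
    rw [h2]
    exact h3.trans (hineq D hD)
  obtain ⟨φ, hφinj, hφ⟩ := (Finset.all_card_le_biUnion_card_iff_exists_injective t).mp hall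
  have hcard : Fintype.card L = Fintype.card Rt := by
    simp only [L, Rt, Fintype.card_prod, Fintype.card_coe, Fintype.card_fin, Fintype.card_sigma]
    rw [← htot, Nat.mul_comm]
  have hbij : Function.Bijective φ := (Fintype.bijective_iff_injective_and_card φ).mpr ⟨hφinj, hcard⟩
  have hMr : (M : ℝ) ≠ 0 := by exact_mod_cast hM.ne'
  refine ⟨fun A B => ((Finset.univ.filter (fun p : L => p.1.1 = A ∧ (φ p).1 = B)).card : ℝ) / M,
    ?_, ?_, ?_, ?_⟩
  · intro A B
    positivity
  · intro A
    rw [← Finset.sum_div]
    have h1 : ∑ B, ((Finset.univ.filter (fun p : L => p.1.1 = A ∧ (φ p).1 = B)).card : ℝ)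
        = ((Finset.univ.filter (fun p : L => p.1.1 = A)).card : ℝ) := by
      have h2 := Finset.card_eq_sum_card_fiberwise (f := fun p : L => (φ p).1)
        (s := Finset.univ.filter (fun p : L => p.1.1 = A)) (t := Finset.univ)
        (by intro p _; simp)
      rw [h2]
      push_cast
      apply Finset.sum_congr rfl
      intro B _
      rw [Finset.filter_filter]
    rw [h1]
    split_ifs with hA
    · have h3 : (Finset.univ.filter (fun p : L => p.1.1 = A)) = ({⟨A, hA⟩} : Finset {A // A ∈ F}) ×ˢ (Finset.univ : Finset (Fin M)) := by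
        ext p
        refine Iff.trans ?_ (Finset.mem_product (s := ({⟨A, hA⟩} : Finset {A // A ∈ F}))
          (t := (Finset.univ : Finset (Fin M))) (p := p)).symm
        rw [Finset.mem_filter, Finset.mem_singleton]
        constructor
        · rintro ⟨-, h⟩
          exact ⟨Subtype.ext h, Finset.mem_univ _⟩
        · rintro ⟨h, -⟩
          exact ⟨Finset.mem_univ _, by rw [h]⟩
      rw [h3, Finset.card_product, Finset.card_singleton, Finset.card_univ, Fintype.card_fin]
      push_cast
      field_simp
    · have h3 : (Finset.univ.filter (fun p : L => p.1.1 = A)) = ∅ := by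
        rw [Finset.filter_eq_empty_iff]
        intro p _ h
        exact hA (h ▸ p.1.2)
      rw [h3]
      simp
  · intro B
    rw [← Finset.sum_div]
    congr 1
    have h2 := Finset.card_eq_sum_card_fiberwise (f := fun p : L => p.1.1)
      (s := Finset.univ.filter (fun p : L => (φ p).1 = B)) (t := Finset.univ)
      (by intro p _; simp)
    have h1 : ∑ A, ((Finset.univ.filter (fun p : L => p.1.1 = A ∧ (φ p).1 = B)).card : ℝ)
        = ((Finset.univ.filter (fun p : L => (φ p).1 = B)).card : ℝ) := by
      rw [h2]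
      push_cast
      apply Finset.sum_congr rfl
      intro A _
      rw [Finset.filter_filter]
      congr 2
      ext p
      simp [and_comm]
    rw [h1]
    have h3 : (Finset.univ.filter (fun p : L => (φ p).1 = B)).card
        = (Finset.univ.filter (fun r : Rt => r.1 = B)).card := by
      apply Finset.card_bij (fun p _ => φ p)
      · intro p hp
        simpa using hp
      · intro p _ q _ h
        exact hφinj h
      · intro r hr
        obtain ⟨p, hp⟩ := hbij.2 r
        refine ⟨p, ?_, hp⟩
        rw [Finset.mem_filter] at hr ⊢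
        exact ⟨Finset.mem_univ _, by rw [hp]; exact hr.2⟩
    rw [h3]
    have h4 : (Finset.univ.filter (fun r : Rt => r.1 = B)) = ({B} : Finset (Finset (Fin n))).sigma (fun _ => Finset.univ) := by
      ext r
      refine Iff.trans ?_ (Finset.mem_sigma (s := ({B} : Finset (Finset (Fin n))))
        (t := fun _ => Finset.univ) (a := r)).symm
      rw [Finset.mem_filter, Finset.mem_singleton]
      constructor
      · rintro ⟨-, h⟩
        exact ⟨h, Finset.mem_univ _⟩
      · rintro ⟨h, -⟩
        exact ⟨Finset.mem_univ _, h⟩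
    rw [h4, Finset.card_sigma]
    simp
  · intro A B hBA
    have h3 : (Finset.univ.filter (fun p : L => p.1.1 = A ∧ (φ p).1 = B)) = ∅ := by
      rw [Finset.filter_eq_empty_iff]
      rintro p _ ⟨h1, h2⟩
      apply hBA
      have := hφ p
      simp only [t, Finset.mem_filter, Finset.mem_univ, true_and] at this
      rw [← h1, ← h2]
      exact this
    show ((Finset.univ.filter (fun p : L => p.1.1 = A ∧ (φ p).1 = B)).card : ℝ) / M = 0
    rw [h3]
    simp

/-- A maximal intersecting family is an antipodal up-set. -/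
theorem au_of_maximal (hn : 0 < n) (F : Finset (Finset (Fin n)))
    (hint : ∀ A ∈ F, ∀ B ∈ F, (A ∩ B).Nonempty)
    (hmax : ∀ G : Finset (Finset (Fin n)), F ⊆ G →
      (∀ A ∈ G, ∀ B ∈ G, (A ∩ B).Nonempty) → G = F) : AU F := by
  classical
  have hins : ∀ A : Finset (Fin n), A.Nonempty → (∀ C ∈ F, (A ∩ C).Nonempty) → A ∈ F := by
    intro A hA hAC
    have hG := hmax (insert A F) (Finset.subset_insert A F) (by
      intro X hX Y hY
      rw [Finset.mem_insert] at hX hY
      rcases hX with rfl | hX <;> rcases hY with rfl | hY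
      · rwa [Finset.inter_self]
      · exact hAC Y hY
      · rw [Finset.inter_comm]; exact hAC X hX
      · exact hint X hX Y hY)
    rw [← hG]
    exact Finset.mem_insert_self A F
  have hup : ∀ A B : Finset (Fin n), A ∈ F → A ⊆ B → B ∈ F := by
    intro A B hA hAB
    apply hins
    · have := hint A hA A hA
      rw [Finset.inter_self] at this
      exact this.mono hAB
    · intro C hC
      exact (hint A hA C hC).mono (Finset.inter_subset_inter_right hAB)
  have hne : F.Nonempty := by
    by_contra hc
    rw [Finset.not_nonempty_iff_eq_empty] at hc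
    have huniv : (Finset.univ : Finset (Fin n)) ∈ F := by
      apply hins
      · exact ⟨⟨0, hn⟩, Finset.mem_univ _⟩
      · intro C hC
        rw [hc] at hC
        simp at hC
    rw [hc] at huniv
    simp at huniv
  refine ⟨hup, ?_⟩
  intro A
  constructor
  · intro hA hAc
    have := hint A hA _ hAc
    rw [Finset.inter_compl] at this
    simp at this
  · intro hAc
    by_contra hA
    apply hAc
    by_cases hA0 : A = ∅
    · obtain ⟨C, hC⟩ := hne
      apply hup C _ hC
      rw [hA0]
      simp
    · have hA1 : A.Nonempty := Finset.nonempty_iff_ne_empty.mpr hA0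
      have : ∃ C ∈ F, ¬ (A ∩ C).Nonempty := by
        by_contra hcon
        push Not at hcon
        exact hA (hins A hA1 hcon)
      obtain ⟨C, hC, hAC⟩ := this
      apply hup C _ hC
      intro i hi
      rw [Finset.mem_compl]
      intro hiA
      exact hAC ⟨i, Finset.mem_inter.mpr ⟨hiA, hi⟩⟩

/-- **Kleitman's flow-down conjecture.** -/
theorem kleitman (hn : 0 < n) (F : Finset (Finset (Fin n)))
    (hint : ∀ A ∈ F, ∀ B ∈ F, (A ∩ B).Nonempty)
    (hmax : ∀ G : Finset (Finset (Fin n)), F ⊆ G →
      (∀ A ∈ G, ∀ B ∈ G, (A ∩ B).Nonempty) → G = F) :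
    ∃ w : Fin n → ℝ, (∀ i, 0 ≤ w i) ∧ (∑ i, w i) = 1 ∧
        ∃ v : Finset (Fin n) → Finset (Fin n) → ℝ,
          (∀ A B, 0 ≤ v A B) ∧
          (∀ A, (∑ B, v A B) = if A ∈ F then (1 : ℝ) else 0) ∧
          (∀ B, (∑ A, v A B) = ∑ i, if i ∈ B then w i else 0) ∧
          (∀ A B, ¬ B ⊆ A → v A B = 0) := by
  classical
  have hF := au_of_maximal hn F hint hmax
  let pick : Finset (Fin n) → Fin n := fun R => if h : R.Nonempty then h.choose else ⟨0, hn⟩
  have hpick : ∀ R : Finset (Fin n), R.Nonempty → pick R ∈ R := by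
    intro R hR
    simp only [pick, hR, dif_pos]
    exact hR.choose_spec
  obtain ⟨v, hv1, hv2, hv3, hv4⟩ := transport F (4 ^ n) (by positivity)
    (fun B => ∑ i ∈ B, Lam F pick i)
    (fun D hD => flow_ineq hF hD pick hpick) (flow_total hF pick)
  refine ⟨fun i => (Lam F pick i : ℝ) / 4 ^ n, ?_, ?_, v, hv1, hv2, ?_, hv4⟩
  · intro i
    positivity
  · rw [← Finset.sum_div]
    have := Lam_sum F pick
    have h2 : (∑ i, (Lam F pick i : ℝ)) = 4 ^ n := by exact_mod_cast this
    rw [h2]
    exact div_self (by positivity)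
  · intro B
    rw [hv3 B]
    push_cast
    rw [Finset.sum_div, Finset.sum_ite_mem, Finset.univ_inter]

end Pool.Agent.Helper6.Kleitman
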